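import Mathlib

/-!
# Positions with Left and Right terminals: simplification is not confluent

The position `{{*L}, {*L, {*L}}}` simplifies by (S1) to `*L` and by (S2) to `{{*L, {*L}}}`.  Both
results are reduced and they are not isomorphic.
-/

set_option autoImplicit false

namespace Pool.Agent.Results.MP_31d4f2_co.NoCanonicalForm

/-! ## Statement -/

/-- Positions: the terminals `*L`, `*R`, and `{G_0, …, G_n}` (`n + 1 ≥ 1` options). -/
inductive Pos : Type
  | tL : Pos
  | tR : Pos
  | node (n : ℕ) (f : Fin (n + 1) → Pos) : Pos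

open Pos

/-- terminal positions -/
def IsTerm : Pos → Prop
  | tL => True
  | tR => True
  | node _ _ => False

/-- `*L ↦ false`, `*R ↦ true` (the value at non-terminal positions is irrelevant) -/
def val : Pos → Bool
  | tR => true
  | _ => false

/-- `IsOpt x G`: `x` is an option of `G` -/
def IsOpt (x : Pos) : Pos → Prop
  | node _ f => ∃ i, x = f i
  | _ => False

/-- `Wins s t G X`: the player `s` has a winning strategy in the disjunctive sum `G + X` when
player `t` is to move (`false` is Left, `true` is Right).  The sum is terminal iff both summands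
are; then Left wins iff the two terminals are equal.  Otherwise the player to move replaces one
non-terminal summand by one of its options. -/
inductive Wins (s : Bool) : Bool → Pos → Pos → Prop
  | fin (t : Bool) (G X : Pos) (hG : IsTerm G) (hX : IsTerm X) (h : xor (val G) (val X) = s) :
      Wins s t G X
  | moveL (t : Bool) (G' G X : Pos) (ht : t = s) (h : IsOpt G' G) (w : Wins s (!t) G' X) :
      Wins s t G X
  | moveR (t : Bool) (G X' X : Pos) (ht : t = s) (h : IsOpt X' X) (w : Wins s (!t) G X') :
      Wins s t G X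
  | wait (t : Bool) (G X : Pos) (ht : t ≠ s) (hn : ¬ (IsTerm G ∧ IsTerm X))
      (h1 : ∀ G', IsOpt G' G → Wins s (!t) G' X) (h2 : ∀ X', IsOpt X' X → Wins s (!t) G X') :
      Wins s t G X

/-- Equivalence: `G + X` and `H + X` have the same outcome for every position `X`. -/
def Equiv (G H : Pos) : Prop := ∀ (X : Pos) (s t : Bool), Wins s t G X ↔ Wins s t H X

/-- the position `{G}` with the single option `G` -/
def single (G : Pos) : Pos := node 0 (fun _ => G)

/-- One simplification step, at the root by (S1) or (S2), or inside the game tree. -/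
inductive Step : Pos → Pos → Prop
  | s1L (n : ℕ) (f : Fin (n + 1) → Pos) (i : Fin (n + 1)) (h1 : Equiv (f i) (single tL))
      (h2 : ∀ j, ∃ y, IsOpt y (f j) ∧ Equiv y tL) : Step (node n f) tL
  | s1R (n : ℕ) (f : Fin (n + 1) → Pos) (i : Fin (n + 1)) (h1 : Equiv (f i) (single tR))
      (h2 : ∀ j, ∃ y, IsOpt y (f j) ∧ Equiv y tR) : Step (node n f) tR
  | s2 (n : ℕ) (f : Fin (n + 1) → Pos) (i : Fin (n + 1)) (hn : 2 ≤ n + 1)
      (h : ∀ j, j ≠ i → ∃ y, IsOpt y (f j) ∧ Equiv y (single (f i))) :
      Step (node n f) (single (f i))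
  | inner (n : ℕ) (f : Fin (n + 1) → Pos) (i : Fin (n + 1)) (g : Pos) (h : Step (f i) g) :
      Step (node n f) (node n (Function.update f i g))

/-- no step applies -/
def Reduced (G : Pos) : Prop := ∀ H, ¬ Step G H

/-- isomorphism of positions -/
inductive Iso : Pos → Pos → Prop
  | tL : Iso tL tL
  | tR : Iso tR tR
  | node (n m : ℕ) (f : Fin (n + 1) → Pos) (g : Fin (m + 1) → Pos)
      (a : Fin (n + 1) → Fin (m + 1)) (ha : ∀ i, Iso (f i) (g (a i)))
      (b : Fin (m + 1) → Fin (n + 1)) (hb : ∀ j, Iso (f (b j)) (g j)) :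
      Iso (node n f) (node m g)

/-! ## Determinacy -/

theorem no_opt_term {x G : Pos} (hG : IsTerm G) (h : IsOpt x G) : False := by
  cases G
  · exact h
  · exact h
  · exact hG

theorem Wins.excl {s t : Bool} {G X : Pos} (h : Wins s t G X) :
    ∀ s', s' ≠ s → ¬ Wins s' t G X := by
  induction h with
  | fin t G X hG hX h =>
      intro s' hs h'
      cases h' with
      | fin _ _ _ _ _ h' => exact hs (h'.symm.trans h)
      | moveL _ G' _ _ _ hh _ => exact no_opt_term hG hh
      | moveR _ _ X' _ _ hh _ => exact no_opt_term hX hh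
      | wait _ _ _ _ hn _ _ => exact hn ⟨hG, hX⟩
  | moveL t G' G X ht hh w ih =>
      intro s' hs h'
      cases h' with
      | fin _ _ _ hG hX _ => exact no_opt_term hG hh
      | moveL _ _ _ _ ht' => exact hs (ht'.symm.trans ht)
      | moveR _ _ _ _ ht' => exact hs (ht'.symm.trans ht)
      | wait _ _ _ _ hn h1 h2 => exact ih s' hs (h1 _ hh)
  | moveR t G X' X ht hh w ih =>
      intro s' hs h'
      cases h' with
      | fin _ _ _ hG hX _ => exact no_opt_term hX hh
      | moveL _ _ _ _ ht' => exact hs (ht'.symm.trans ht)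
      | moveR _ _ _ _ ht' => exact hs (ht'.symm.trans ht)
      | wait _ _ _ _ hn h1 h2 => exact ih s' hs (h2 _ hh)
  | wait t G X ht hn h1 h2 ih1 ih2 =>
      intro s' hs h'
      cases h' with
      | fin _ _ _ hG hX _ => exact hn ⟨hG, hX⟩
      | moveL _ G' _ _ _ hh w => exact ih1 _ hh s' hs w
      | moveR _ _ X' _ _ hh w => exact ih2 _ hh s' hs w
      | wait _ _ _ ht' => cases s <;> cases s' <;> cases t <;> simp_all

theorem det (G : Pos) : ∀ X t, Wins t t G X ∨ Wins (!t) t G X := by
  have key : ∀ (G X : Pos), (∀ G', IsOpt G' G → ∀ t, Wins t t G' X ∨ Wins (!t) t G' X) →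
      (∀ X', IsOpt X' X → ∀ t, Wins t t G X' ∨ Wins (!t) t G X') →
      ∀ t, Wins t t G X ∨ Wins (!t) t G X := by
    intro G X hG hX t
    by_cases hT : IsTerm G ∧ IsTerm X
    · rcases Bool.eq_or_eq_not (xor (val G) (val X)) t with h | h
      · exact Or.inl (Wins.fin t G X hT.1 hT.2 h)
      · exact Or.inr (Wins.fin t G X hT.1 hT.2 h)
    · by_cases h1 : ∃ G', IsOpt G' G ∧ Wins t (!t) G' X
      · obtain ⟨G', h1, h2⟩ := h1
        exact Or.inl (Wins.moveL t G' G X rfl h1 h2)
      · by_cases h2 : ∃ X', IsOpt X' X ∧ Wins t (!t) G X'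
        · obtain ⟨X', h2, h3⟩ := h2
          exact Or.inl (Wins.moveR t G X' X rfl h2 h3)
        · right
          push Not at h1 h2
          refine Wins.wait t G X (by cases t <;> simp) hT ?_ ?_
          · intro G' hG'
            rcases hG G' hG' (!t) with h | h
            · exact h
            · rw [Bool.not_not] at h; exact absurd h (h1 G' hG')
          · intro X' hX'
            rcases hX X' hX' (!t) with h | h
            · exact h
            · rw [Bool.not_not] at h; exact absurd h (h2 X' hX')
  induction G with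
  | tL =>
      intro X
      induction X with
      | tL => exact key _ _ (fun _ h => h.elim) (fun _ h => h.elim)
      | tR => exact key _ _ (fun _ h => h.elim) (fun _ h => h.elim)
      | node m g ih =>
          exact key _ _ (fun _ h => h.elim) (by rintro _ ⟨i, rfl⟩; exact ih i)
  | tR =>
      intro X
      induction X with
      | tL => exact key _ _ (fun _ h => h.elim) (fun _ h => h.elim)
      | tR => exact key _ _ (fun _ h => h.elim) (fun _ h => h.elim)
      | node m g ih =>
          exact key _ _ (fun _ h => h.elim) (by rintro _ ⟨i, rfl⟩; exact ih i)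
  | node n f ihf =>
      intro X
      induction X with
      | tL => exact key _ _ (by rintro _ ⟨i, rfl⟩; exact ihf i _) (fun _ h => h.elim)
      | tR => exact key _ _ (by rintro _ ⟨i, rfl⟩; exact ihf i _) (fun _ h => h.elim)
      | node m g ih =>
          exact key _ _ (by rintro _ ⟨i, rfl⟩; exact ihf i _) (by rintro _ ⟨i, rfl⟩; exact ih i)

theorem det' (G X : Pos) (s t : Bool) : Wins s t G X ∨ Wins (!s) t G X := by
  rcases Bool.eq_or_eq_not s t with h | h
  · subst h; exact det G X s
  · subst h; rw [Bool.not_not]; exact (det G X t).symm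

/-! ## The positions -/

/-- `{*L}` -/
def T1 : Pos := single tL
/-- `{*L, {*L}}` -/
def A : Pos := node 1 ![tL, T1]
/-- `{{*L, {*L}}}` -/
def B : Pos := single A
/-- `{{*L}, {*L, {*L}}}` -/
def G0 : Pos := node 1 ![T1, A]

theorem opt_single {x G : Pos} : IsOpt x (single G) ↔ x = G := by
  unfold single IsOpt
  exact ⟨fun ⟨_, h⟩ => h, fun h => ⟨0, h⟩⟩

theorem opt_A {x : Pos} : IsOpt x A ↔ x = tL ∨ x = T1 := by
  unfold A IsOpt
  constructor
  · rintro ⟨i, rfl⟩
    fin_cases i
    · left; rfl
    · right; rfl
  · rintro (rfl | rfl)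
    · exact ⟨0, rfl⟩
    · exact ⟨1, rfl⟩

theorem tL_term : IsTerm tL := trivial

theorem tL_to_B {s t : Bool} {X : Pos} (h : Wins s t tL X) : Wins s t B X := by
  generalize hG : tL = G at h
  induction h with
  | fin t G X hGt hX h =>
      subst hG
      have hw : ∀ t', Wins s t' tL X := fun t' => Wins.fin t' _ _ tL_term hX h
      by_cases ht : t = s
      · refine Wins.moveL t A B X ht (opt_single.2 rfl) ?_
        refine Wins.wait _ _ _ (by subst ht; cases t <;> simp) (fun hc => hc.1) ?_ ?_
        · intro G' hG'
          rcases opt_A.1 hG' with rfl | rfl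
          · exact hw _
          · refine Wins.moveL _ tL _ _ (by subst ht; simp) (opt_single.2 rfl) (hw _)
        · intro X' hX'
          exact (no_opt_term hX hX').elim
      · refine Wins.wait _ _ _ ht (fun hc => hc.1) ?_ ?_
        · intro G' hG'
          have e : G' = A := opt_single.1 hG'
          subst e
          refine Wins.moveL _ tL _ _ (by cases t <;> cases s <;> simp_all) (opt_A.2 (Or.inl rfl)) (hw _)
        · intro X' hX'
          exact (no_opt_term hX hX').elim
  | moveL t G' G X ht hh w ih =>
      subst hG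
      exact hh.elim
  | moveR t G X' X ht hh w ih =>
      subst hG
      exact Wins.moveR t B X' X ht hh (ih rfl)
  | wait t G X ht hn h1 h2 ih1 ih2 =>
      subst hG
      refine Wins.wait t B X ht (fun hc => hc.1) ?_ ?_
      · intro G' hG'
        have e : G' = A := opt_single.1 hG'
        subst e
        have hs : (!t) = s := by cases t <;> cases s <;> simp_all
        refine Wins.moveL _ tL _ _ hs (opt_A.2 (Or.inl rfl)) ?_
        rw [Bool.not_not]
        exact Wins.wait t tL X ht hn h1 h2
      · intro X' hX'
        exact ih2 X' hX' rfl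

theorem equiv_tL_B : Equiv tL B := by
  intro X s t
  constructor
  · exact tL_to_B
  · intro h
    rcases det' tL X s t with h1 | h1
    · exact h1
    · exact absurd (tL_to_B h1) (h.excl _ (by cases s <;> simp))

/-- the tempo positions `X1 = {*L, *R}`, `X2 = {X1}`, `X3 = {X2}` -/
def X1 : Pos := node 1 ![tL, tR]
def X2 : Pos := single X1
def X3 : Pos := single X2

theorem opt_X1 {x : Pos} : IsOpt x X1 ↔ x = tL ∨ x = tR := by
  unfold X1 IsOpt
  constructor
  · rintro ⟨i, rfl⟩
    fin_cases i
    · left; rfl
    · right; rfl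
  · rintro (rfl | rfl)
    · exact ⟨0, rfl⟩
    · exact ⟨1, rfl⟩

/-- terminal that makes `s` win -/
def tm (s : Bool) : Pos := if s then tR else tL

theorem tm_opt (s : Bool) : IsOpt (tm s) X1 := by
  rw [opt_X1]; cases s <;> simp [tm]

theorem tm_over (s t : Bool) : Wins s t tL (tm s) := by
  refine Wins.fin t _ _ tL_term (by cases s <;> exact trivial) (by cases s <;> rfl)

theorem w1 (s : Bool) : Wins s s tL X1 := Wins.moveR s tL (tm s) X1 rfl (tm_opt s) (tm_over s _)

theorem w2 (s : Bool) : Wins s (!s) tL X2 := by
  refine Wins.wait _ _ _ (by cases s <;> simp) (fun hc => hc.2) (fun G' h => h.elim) ?_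
  intro X' hX'
  have e : X' = X1 := opt_single.1 hX'
  subst e
  rw [Bool.not_not]
  exact w1 s

theorem w3 (s : Bool) : Wins s s tL X3 := Wins.moveR s tL X2 X3 rfl (opt_single.2 rfl) (w2 s)

theorem v2 (s : Bool) : Wins s s T1 X2 := Wins.moveL s tL T1 X2 rfl (opt_single.2 rfl) (w2 s)

theorem v3 (s : Bool) : Wins s (!s) T1 X3 := by
  refine Wins.wait _ _ _ (by cases s <;> simp) (fun hc => hc.2) ?_ ?_
  · intro G' hG'
    have e : G' = tL := opt_single.1 hG'
    subst e
    rw [Bool.not_not]
    exact w3 s
  · intro X' hX'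
    have e : X' = X2 := opt_single.1 hX'
    subst e
    rw [Bool.not_not]
    exact v2 s

theorem a3 (s : Bool) : Wins s s A X3 := Wins.moveL s T1 A X3 rfl (opt_A.2 (Or.inr rfl)) (v3 s)

theorem A_not_T1 : ¬ Equiv A T1 := by
  intro h
  have h1 := (h X3 false false).1 (a3 false)
  exact h1.excl true (by simp) (v3 true)

theorem tL_not_T1 : ¬ Equiv tL T1 := by
  intro h
  have h1 := (h X2 false false).2 (v2 false)
  exact h1.excl true (by simp) (w2 true)

theorem A_not_R : ¬ Equiv A (single tR) := by
  intro h
  have h1 : Wins false false A tL :=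
    Wins.moveL _ tL A tL rfl (opt_A.2 (Or.inl rfl)) (Wins.fin _ _ _ trivial trivial rfl)
  have h2 := (h tL false false).1 h1
  have h3 : Wins true false (single tR) tL := by
    refine Wins.wait _ _ _ (by simp) (fun hc => hc.1) ?_ (fun _ hh => hh.elim)
    intro G' hG'
    rw [opt_single] at hG'
    subst hG'
    exact Wins.fin _ _ _ trivial trivial rfl
  exact h2.excl true (by simp) h3

theorem Equiv.refl (G : Pos) : Equiv G G := fun _ _ _ => Iff.rfl

theorem reduced_tL : Reduced tL := by
  intro H h
  cases h

theorem no_opt_tL {y : Pos} (h : IsOpt y tL) : False := h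

theorem reduced_T1 : Reduced T1 := by
  intro H h
  unfold T1 single at h
  cases h with
  | s1L n f i h1 h2 => obtain ⟨y, hy, _⟩ := h2 0; exact hy
  | s1R n f i h1 h2 => obtain ⟨y, hy, _⟩ := h2 0; exact hy
  | s2 n f i hn h => omega
  | inner n f i g h => exact reduced_tL _ h

theorem reduced_A : Reduced A := by
  intro H h
  unfold A at h
  cases h with
  | s1L n f i h1 h2 => obtain ⟨y, hy, _⟩ := h2 0; exact hy
  | s1R n f i h1 h2 => obtain ⟨y, hy, _⟩ := h2 0; exact hy
  | s2 n f i hn h =>
      fin_cases i
      · -- the chosen option is `*L`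
        obtain ⟨y, hy, he⟩ := h 1 (by simp)
        have hy' : y = tL := opt_single.1 hy
        subst hy'
        exact tL_not_T1 he
      · obtain ⟨y, hy, _⟩ := h 0 (by simp)
        exact hy
  | inner n f i g h =>
      fin_cases i
      · exact reduced_tL _ h
      · exact reduced_T1 _ h

theorem reduced_B : Reduced B := by
  intro H h
  unfold B single at h
  cases h with
  | s1L n f i h1 h2 => exact A_not_T1 h1
  | s1R n f i h1 h2 => exact A_not_R h1
  | s2 n f i hn h => omega
  | inner n f i g h => exact reduced_A _ h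

theorem step_S1 : Step G0 tL := by
  refine Step.s1L 1 ![T1, A] 0 (Equiv.refl _) ?_
  intro j
  fin_cases j
  · exact ⟨tL, opt_single.2 rfl, Equiv.refl _⟩
  · exact ⟨tL, opt_A.2 (Or.inl rfl), Equiv.refl _⟩

theorem step_S2 : Step G0 B := by
  refine Step.s2 1 ![T1, A] 1 (by omega) ?_
  intro j hj
  fin_cases j
  · exact ⟨tL, opt_single.2 rfl, equiv_tL_B⟩
  · exact absurd rfl hj

/-- **Simplification by (S1) and (S2) does not always lead to a unique simplest position.**  There
is a position `G` from which two reduced positions, not isomorphic to each other, can be reached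
by finite sequences of simplification steps. -/
theorem result : ∃ G H K : Pos, Relation.ReflTransGen Step G H ∧ Reduced H ∧
    Relation.ReflTransGen Step G K ∧ Reduced K ∧ ¬ Iso H K := by
  refine ⟨G0, tL, B, Relation.ReflTransGen.single step_S1, reduced_tL,
    Relation.ReflTransGen.single step_S2, reduced_B, ?_⟩
  intro h
  unfold B single at h
  cases h

end Pool.Agent.Results.MP_31d4f2_co.NoCanonicalForm
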